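import Mathlib
import Pool.Agent.MP_02cac4_co.Defs
import Pool.Agent.MP_02cac4_co.Own

set_option autoImplicit false

open Pool.Agent.MP_02cac4_co

theorem Pool.Agent.MP_02cac4_co.Old.notMeagre (d : ℕ) (hd : 3 ≤ d) :
    ¬ IsMeagre {C : SymmBody d | ∃ b : Fin d → EuclideanSpace ℝ (Fin d), LinearIndependent ℝ b ∧
      IsMaximumLattice (C.1 : Set (EuclideanSpace ℝ (Fin d))) b ∧
      ¬ IsUltraMaximumLattice (C.1 : Set (EuclideanSpace ℝ (Fin d))) b} :=
  not_meagre hd
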